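import Pool.Agent.H44.Pak4

open Filter Topology Pool.Agent.H44.Pak

theorem Pool.Agent.Results.MP_8d2225_pr.NoCutoff.result :
    ∃ (G : ℕ → Type) (_ : ∀ n, Fintype (G n)) (_ : ∀ n, DecidableEq (G n))
      (_ : ∀ n, AddCommGroup (G n)) (S : ∀ n, Finset (G n)),
      Tendsto (fun n => Fintype.card (G n)) atTop atTop ∧
      (∀ n, (∀ s ∈ S n, -s ∈ S n) ∧ (0 : G n) ∉ S n ∧
        AddSubgroup.closure (S n : Set (G n)) = ⊤) ∧
      (∀ n, ∀ ε > 0, ∃ t, tvDist (lazyCayley (S n)) t ≤ ε) ∧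
      Tendsto (fun n => (tmix (lazyCayley (S n)) (1 / 4) : ℝ) / trel (lazyCayley (S n)))
        atTop atTop ∧
      ¬ ∀ ε ∈ Set.Ioo (0 : ℝ) (1 / 2), Tendsto (fun n =>
        (tmix (lazyCayley (S n)) ε : ℝ) / tmix (lazyCayley (S n)) (1 - ε)) atTop (𝓝 1) := by
  choose G i1 i2 i3 S θ h using exists_good
  have hr : ∀ n : ℕ, 11 ≤ n + 11 := fun n => by omega
  refine ⟨G, i1, i2, i3, S, card_tendsto fun n => (h n).card,
    fun n => ⟨(h n).symm, (h n).zero, (h n).closure (hr n)⟩, fun n => ?_, ?_, fun hc => ?_⟩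
  · rw [lazyCayley_eq]; exact ((h n).tv (hr n) (by norm_num) le_rfl).1
  · refine tendsto_of_ge fun n => ?_
    rw [lazyCayley_eq, div_trel]; exact (h n).prod (hr n) (by norm_num) le_rfl
  · refine not_tendsto_one (fun n => ?_) (hc (1 / 4) ⟨by norm_num, by norm_num⟩)
    rw [lazyCayley_eq]; exact ((h n).tv (hr n) (by norm_num) le_rfl).2.2
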